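import Pool.Agent.Helper80.EC_F.Goals

/-! Packet L3 (MP_ecc237_nt, Part F): the value of `L(χ₋₃, 3)`. -/

open MeasureTheory Filter Topology Set

namespace EC237.PF.PkL3

theorem bern3 : (Polynomial.bernoulli 3).eval (1 / 3 : ℚ) = 1 / 27 := by
  simp_rw [Polynomial.bernoulli, Finset.sum_range_succ, Polynomial.eval_add,
    Polynomial.eval_monomial]
  rw [Finset.sum_range_zero, Polynomial.eval_zero, zero_add, _root_.bernoulli_one]
  rw [bernoulli_eq_bernoulli'_of_ne_one zero_ne_one, bernoulli'_zero,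
    bernoulli_eq_bernoulli'_of_ne_one (by decide : 2 ≠ 1), bernoulli'_two,
    bernoulli_eq_bernoulli'_of_ne_one (by decide : 3 ≠ 1), bernoulli'_three]
  norm_num

theorem sin_three (k : ℕ) (r : ℝ) :
    Real.sin (2 * Real.pi * ((3 * k : ℕ) + r : ℝ) * (1 / 3)) = Real.sin (2 * Real.pi / 3 * r) := by
  have h := Real.sin_add_nat_mul_two_pi (2 * Real.pi / 3 * r) k
  rw [← h]
  congr 1
  push_cast
  ring

theorem sin_one : Real.sin (2 * Real.pi / 3 * 1) = Real.sqrt 3 / 2 := by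
  rw [show 2 * Real.pi / 3 * 1 = Real.pi - Real.pi / 3 by ring, Real.sin_pi_sub,
    Real.sin_pi_div_three]

theorem sin_two : Real.sin (2 * Real.pi / 3 * 2) = -(Real.sqrt 3 / 2) := by
  rw [show 2 * Real.pi / 3 * 2 = Real.pi / 3 + Real.pi by ring, Real.sin_add_pi,
    Real.sin_pi_div_three]

theorem sin_chi (n : ℕ) :
    Real.sin (2 * Real.pi * n * (1 / 3)) = Real.sqrt 3 / 2 * chi (n : ℤ) := by
  obtain ⟨k, r, hr, rfl⟩ : ∃ k r : ℕ, r < 3 ∧ n = 3 * k + r :=
    ⟨n / 3, n % 3, Nat.mod_lt _ (by norm_num), (Nat.div_add_mod n 3).symm⟩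
  have h := sin_three k r
  push_cast at h ⊢
  rw [h]
  unfold chi
  interval_cases r
  · have : ((3 : ℤ) * k + ((0:ℕ):ℤ)) % 3 = 0 := by push_cast; omega
    simp
  · have h1 : ((3 : ℤ) * k + 1) % 3 = 1 := by omega
    simp only [Nat.cast_one]
    rw [sin_one, if_pos h1]
    ring
  · have h1 : ((3 : ℤ) * k + 2) % 3 = 2 := by omega
    have h2 : ¬ ((3 : ℤ) * k + 2) % 3 = 1 := by omega
    simp only [Nat.cast_ofNat]
    rw [sin_two, if_neg h2, if_pos h1]
    ring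

theorem thm : G_L3 := by
  have h := hasSum_one_div_nat_pow_mul_sin (k := 1) one_ne_zero (x := 1 / 3)
    ⟨by norm_num, by norm_num⟩
  have hv : ((-1 : ℝ) ^ (1 + 1) * (2 * Real.pi) ^ (2 * 1 + 1) / 2 / (Nat.factorial (2 * 1 + 1)) *
      (Polynomial.map (algebraMap ℚ ℝ) (Polynomial.bernoulli (2 * 1 + 1))).eval (1 / 3))
      = 2 * Real.pi ^ 3 / 81 := by
    have h3 : (1 / 3 : ℝ) = (algebraMap ℚ ℝ) (1 / 3 : ℚ) := by simp
    rw [h3, Polynomial.eval_map, Polynomial.eval₂_at_apply, (by decide : 2 * 1 + 1 = 3), bern3]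
    simp [Nat.factorial]
    ring
  rw [hv] at h
  have h2 : HasSum (fun n : ℕ => 2 / Real.sqrt 3 *
      (1 / (n : ℝ) ^ (2 * 1 + 1) * Real.sin (2 * Real.pi * n * (1 / 3))))
      (2 / Real.sqrt 3 * (2 * Real.pi ^ 3 / 81)) := h.mul_left _
  have hs : Real.sqrt 3 ≠ 0 := by positivity
  have e : (fun n : ℕ => 2 / Real.sqrt 3 *
      (1 / (n : ℝ) ^ (2 * 1 + 1) * Real.sin (2 * Real.pi * n * (1 / 3))))
      = fun n : ℕ => chi (n : ℤ) / (n : ℝ) ^ 3 := by
    funext n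
    rw [sin_chi]
    field_simp
  rw [e] at h2
  have h3 := (hasSum_nat_add_iff' 1).2 h2
  unfold G_L3
  convert! h3 using 1
  · funext n
    push_cast
    rfl
  · have : chi 0 = 0 := by unfold chi; simp
    simp [this]
    field_simp
    ring

end EC237.PF.PkL3
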